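import Pool.Agent.Results.MP_1a953e_ag.BoundedDegreeAdicPoints
import Pool.Agent.Run7.h360.TA.Adic
import Pool.Agent.Run7.h360.TA.Adic2

/-!
MP_1a953e_ag: semistable uniformization, in every residue characteristic and in all dimensions, of the
points of `X^ad` for the varieties `X` with a torus action, over good points of the quotient.

Let `k` be a (complete) discretely valued field with the ring of integers `O`, the uniformizer `π` and the
residue field `κ` of characteristic `p ≥ 0`; if `k` has positive characteristic, suppose that `κ` is
finite over `κ ^ p`. Let `𝒳` be an integral projective flat `O`-scheme with the generic fibre `X` and the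
function field `K`, on which the torus `𝔾_m ^ r` acts linearly: the homogeneous coordinates
`z 1, ..., z m` are multiplied by characters `w i` (`IsLinearAction`: with a homogeneous polynomial the
components of all weights vanish at the generic point `z`). There is no condition on `r`, on the
dimension of `X`, on the degree of `X`, on the weights, or on `p`. Let `E` be the field of the invariant rational
functions (`invariantField`), that is, the function field of the quotient, which is of transcendence
degree `c` over `k` if the general orbits have codimension `c` in `X`. Consider a point of `X^ad` over the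
generic point of `X`, that is, a valuation ring `V` of `K`, of any rank, which contains `O`, such that `π`
is topologically nilpotent. Suppose that the restriction of `V` to `E` is discrete, or has divergent
sequences of quadratic transforms, or is log uniformizable (`IsAdmissible` of the starting file
`BoundedDegreeAdicPoints`; the last condition is satisfied if `c ≤ 2`, by Cossart and Piltant), and that
`|π|` is not a `p`-th power in the value group of `V`.

Then there are numbers `d` and `N₀` such that, for every `N ≥ N₀` divisible by `d`, for `l = k(ϖ)`,
`ϖ ^ N = π`, with the ring of integers `O[ϖ]`, and for every preimage `V'` of `V` in `X_l^ad`, a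
blowing-up of `𝒳 ⊗ O[ϖ]` in a closed subscheme of the special fibre, that is, an admissible
blowing-up, is semistable at the specialization of `V'`, and at the specializations of all
generizations of `V'` in `X_l^ad`: the local ring is regular, and `ϖ` is a product of distinct
elements of a regular system of parameters. The number `d` is prime to `p`, unless the value of `π`
is infinitely near to a `p`-th power.

Relation to the starting files. `BoundedDegreeAdicPoints` treats varieties of degree `δ` over `E`, defined
by polynomials of degree at most `e` over `E`, for `p > (δ e ^ r) ^ 2 ^ r`, `E` any subfield.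
`FrobeniusLevelsAdicPoints` has equal characteristic `p` and coordinates given by linear relations. Here the
subfield is given by the group action, and there is no condition on the characteristic or the degree: a
variety of large degree with a torus action has degree one over the field of invariants. In particular
mixed characteristic and small `p` are contained.

The proof. The weights of the functions `z i / z 0` generate a free group, and a basis of this group is
given by Laurent monomials `x j` in the `z i`, which are algebraically independent over `E`, as they have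
independent weights; each `z i` is the product of a Laurent monomial in the `x j` and of an invariant
Laurent monomial `a i`, and comparing the exponents one sees that `E` is generated by `O` and the `a i`
(`structure_thm`). So `K = E (x 1, ..., x n)` has degree one over `E`, and `𝒳` is defined in degree one
over `E`; now the starting theorem can be applied, its condition on the primes being empty.

helper360; built on the library of the starting files (helpers 98, 176, 188, 187, 418 and their teams). For
resolution of singularities and local uniformization of varieties with a torus action over perfect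
fields see `MP_b525bf_ag.TorusActions` and `MP_3029eb_ag.TorusActionsAdmissible`.
-/

set_option autoImplicit false

universe u

namespace Pool.Agent.Results.MP_1a953e_ag.TorusActionsAdicPoints

open MvPolynomial Pool.Agent.Results.MP_1a953e_ag.BoundedDegreeAdicPoints

/-- The torus `𝔾_m ^ r` acts on the projective scheme `𝒳 = Proj O[z 1, ..., z m]` (`z` its generic point) such
that the homogeneous coordinate `z i` is multiplied by the character `w i`: if a homogeneous polynomial
over `O` vanishes at `z`, then all its components for the weights `w` vanish at `z`. -/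
def IsLinearAction {K : Type u} [Field K] (O : Subring K) {m r : ℕ} (z : Fin m → K)
    (w : Fin m → (Fin r → ℤ)) : Prop :=
  ∀ (n : ℕ) (F : MvPolynomial (Fin m) O), F.IsHomogeneous n → aeval z F = 0 →
    ∀ d, aeval z (weightedHomogeneousComponent w d F) = 0

/-- `x` is an invariant rational function on `𝒳`: a quotient of two homogeneous polynomials in the
homogeneous coordinates of the same degree and of the same weight. -/
def IsInvariant {K : Type u} [Field K] (O : Subring K) {m r : ℕ} (z : Fin m → K)
    (w : Fin m → (Fin r → ℤ)) (x : K) : Prop :=
  ∃ (n : ℕ) (e : Fin r → ℤ) (F G : MvPolynomial (Fin m) O), F.IsHomogeneous n ∧ G.IsHomogeneous n ∧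
    IsWeightedHomogeneous w F e ∧ IsWeightedHomogeneous w G e ∧ aeval z G ≠ 0 ∧
      x = aeval z F / aeval z G

lemma isInvariant_iff {K : Type u} [Field K] (O : Subring K) {m r : ℕ} (z : Fin m → K)
    (w : Fin m → (Fin r → ℤ)) (x : K) :
    x ∈ Pool.Agent.Run7.h360.TA.Adic.invField O z w ↔ IsInvariant O z w x := by
  constructor
  · rintro ⟨n, e, F, G, h1, h2, h3, h4, h5, h6⟩
    rw [zero_add] at h3
    exact ⟨n, e, F, G, h1, h2, h3, h4, h5, h6⟩
  · rintro ⟨n, e, F, G, h1, h2, h3, h4, h5, h6⟩
    exact ⟨n, e, F, G, h1, h2, by rw [zero_add]; exact h3, h4, h5, h6⟩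

lemma pprod_pow {E K : Type u} [Field E] [Field K] [Algebra E K] {n : ℕ} (x : Fin n → K) {y : K}
    (hy : IsProduct E x 1 y) (k : ℕ) : IsProduct E x 1 (y ^ k) := by
  induction k with
  | zero =>
    rw [pow_zero]
    have h := Pool.Agent.N98.SS.pprod_const (E := E) (K := K) (x := x) (e := 1) (1 : E)
    rw [map_one] at h
    exact h
  | succ k ih =>
    rw [pow_succ]
    exact Pool.Agent.N98.SS.pprod_mul ih hy

lemma pprod_prod {E K : Type u} [Field E] [Field K] [Algebra E K] {n : ℕ} (x : Fin n → K) {σ : Type}
    (s : Finset σ) (y : σ → K) (hy : ∀ i ∈ s, IsProduct E x 1 (y i)) : IsProduct E x 1 (∏ i ∈ s, y i) := by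
  classical
  induction s using Finset.induction_on with
  | empty =>
    rw [Finset.prod_empty]
    have h := Pool.Agent.N98.SS.pprod_const (E := E) (K := K) (x := x) (e := 1) (1 : E)
    rw [map_one] at h
    exact h
  | insert i s hi ih =>
    rw [Finset.prod_insert hi]
    exact Pool.Agent.N98.SS.pprod_mul (hy i (Finset.mem_insert_self _ _))
      (ih fun j hj => hy j (Finset.mem_insert_of_mem hj))

/-- Let `V` be a valuation ring, of any rank, of a field `K`. Let `O ⊆ V` be a Dedekind domain of
characteristic zero or finite over its `p`-th powers (for example, `O = k°` for a discretely valued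
field `k`), and let `π ≠ 0` be an element of `O` (for example, a uniformizer of `k`) which is
topologically nilpotent in `V`. Let `𝒳` be an integral projective `O`-scheme with function field `K`
and with the homogeneous coordinates `z 1, ..., z m` (all not zero on `𝒳`, normalized such that
`z i₀ = 1` for a coordinate `i₀` whose chart contains the centre of `V`), and let the torus
`𝔾_m ^ r` act on `𝒳` such that `z i` is multiplied by the character `w i`. Let `E` be the field of the
invariant rational functions, and suppose that the restriction of `V` to `E` is a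
discrete valuation ring, or has divergent sequences of quadratic transforms, or is log uniformizable
on all models of `E`. Suppose that the value of `π` is not a
`p`-th power in the value group of `V` if `p` is the residue characteristic of `V`.

Then there are `d` and `N₀` such that for all `N ≥ N₀` divisible by `d` there are `K' = K(ϖ)`,
`ϖ ^ N = π`, and valuation rings `V'` of `K'` over `V`, and for all such `K'` and `V'` there is a
closed subscheme of the fibre of `𝒳 ⊗ O[ϖ]` over `ϖ = 0` such that the blowing-up in this subscheme
(the main component if `K ⊗ k(ϖ)` is not a field) is semistable at the centre of `V'` and at the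
centres of all valuation rings `V₁ ⊇ V'` with `|ϖ| < 1`. The prime divisors `q` of `d` are units of
`V`, or all powers of the value of `π / y ^ q` are greater than the value of `π`, for some `y`. -/
theorem result {K : Type u} [Field K] (V : ValuationSubring K)
    (O : Subring K) [IsDedekindDomain O] (hOb : IsBase O) (hO : ∀ a ∈ O, a ∈ V)
    (π : K) (hπ : π ∈ O) (hπ0 : π ≠ 0) (hπ1 : V.valuation π < 1)
    (hπV : ∀ y : K, y ≠ 0 → ∃ n : ℕ, V.valuation π ^ n ≤ V.valuation y)
    (hdiv : ∀ p : ℕ, p.Prime → V.valuation (p : K) < 1 → ∀ y : K,
      V.valuation y ^ p ≠ V.valuation π)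
    (m r : ℕ) (z : Fin m → K) (hz0 : ∀ i, z i ≠ 0) (hzV : ∀ i, z i ∈ V)
    (i₀ : Fin m) (hi₀ : z i₀ = 1)
    (hK : ∀ y : K, ∃ F G : MvPolynomial (Fin m) O, aeval z G ≠ 0 ∧ y = aeval z F / aeval z G)
    (w : Fin m → (Fin r → ℤ)) (hact : IsLinearAction O z w)
    (E : Subfield K) (hE : ∀ x : K, x ∈ E ↔ IsInvariant O z w x)
    (hEv : IsAdmissible (O.comap E.subtype) (V.comap E.subtype)) :
    ∃ d N₀ : ℕ, 0 < d ∧ (∀ q : ℕ, q.Prime → q ∣ d → V.valuation (q : K) = 1 ∨
        ∃ y : K, ∀ n : ℤ, V.valuation π < V.valuation (π / y ^ q) ^ n) ∧
      ∀ N : ℕ, N₀ ≤ N → d ∣ N →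
      (∃ (K' : Type u) (_ : Field K') (_ : Algebra K K') (V' : ValuationSubring K') (ϖ : K'),
        IsLift V π N V' ϖ) ∧
      ∀ {K' : Type u} [Field K'] [Algebra K K'] (V' : ValuationSubring K') (ϖ : K'),
        IsLift V π N V' ϖ →
        ∃ Y : Set K',
          IsVerticalCentre (ramifiedRing (algebraMap K K') O ϖ) ϖ (algebraMap K K' '' Set.range z) Y ∧
          ∀ V₁ : ValuationSubring K', V' ≤ V₁ → V₁.valuation ϖ < 1 →
            IsSemistableAt V₁ (ramifiedRing (algebraMap K K') O ϖ)
              (blowUpCoordinates (algebraMap K K' '' Set.range z) Y) ϖ := by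
  classical
  have hEeq : E = Pool.Agent.Run7.h360.TA.Adic.invField O z w := by
    ext x
    rw [hE, isInvariant_iff]
  subst hEeq
  obtain ⟨n, x, a, c, ez, hx, ha, hx0, ha0, hza, haz, hind, hcl, htop⟩ :=
    Pool.Agent.Run7.h360.TA.Adic.structure_thm (O := O) (z := z) (w := w) hact hz0 i₀ hi₀ hK
  obtain ⟨htr, cc, hC⟩ := Pool.Agent.Run7.h360.TA.Adic.degree_one x hind htop
  set E : Subfield K := Pool.Agent.Run7.h360.TA.Adic.invField O z w with hEdef
  have hzp : ∀ i, IsProduct E x 1 (z i) := by
    intro i
    refine ⟨n + 1, Fin.cons (C (⟨a i, ha i⟩ : E)) (fun j => X j), Fin.cons 1 (c i), ?_, ?_⟩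
    · intro j
      refine Fin.cases ?_ (fun j => ?_) j
      · rw [Fin.cons_zero, totalDegree_C]
        exact Nat.zero_le _
      · rw [Fin.cons_succ]
        exact (totalDegree_X j).le
    · rw [Fin.prod_univ_succ]
      simp only [Fin.cons_zero, Fin.cons_succ, zpow_one, aeval_X, aeval_C]
      exact hza i
  have hzA : ∀ i, z i ∈ chart O (Set.range z) 1 := fun i =>
    Subring.subset_closure (Or.inr ⟨z i, ⟨i, rfl⟩, (div_one _).symm⟩)
  have hfrac : ∀ e : Fin m → ℤ, IsFraction E x 1 (chart O (Set.range z) 1) (∏ i, z i ^ e i) := by
    intro e
    refine ⟨∏ i, z i ^ (-e i).toNat, prod_mem fun i _ => pow_mem (hzA i) _,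
      Finset.prod_ne_zero_iff.2 fun i _ => pow_ne_zero _ (hz0 i),
      pprod_prod x _ _ fun i _ => pprod_pow x (hzp i) _, ?_⟩
    rw [← Finset.prod_mul_distrib]
    refine prod_mem fun i _ => ?_
    have h1 : z i ^ (-e i).toNat * z i ^ e i = z i ^ (e i).toNat := by
      rw [← zpow_natCast (z i) (-e i).toNat, ← zpow_natCast (z i) (e i).toNat, ← zpow_add₀ (hz0 i)]
      congr 1
      omega
    rw [h1]
    exact pow_mem (hzA i) _
  have hax : ∀ i, a i = ∏ i', z i' ^ (Pi.single (M := fun _ => ℤ) i 1 i' + ∑ j, -c i j * ez j i') := by
    intro i
    rw [haz i]
    have h1 : ∏ j, x j ^ (-c i j) = ∏ i', z i' ^ (∑ j, -c i j * ez j i') := by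
      rw [← Pool.Agent.Run7.h360.TA.Adic.prod_zpow_sum Finset.univ Finset.univ z hz0 ez (fun j => -c i j)]
      exact Finset.prod_congr rfl fun j _ => by rw [hx j]
    rw [h1]
    have h2 : z i = ∏ i', z i' ^ (Pi.single (M := fun _ => ℤ) i 1 i') := by
      rw [Finset.prod_eq_single i]
      · rw [Pi.single_eq_same, zpow_one]
      · intro j _ hj
        rw [Pi.single_eq_of_ne hj, zpow_zero]
      · intro h
        exact absurd (Finset.mem_univ _) h
    conv_lhs => rw [h2]
    rw [← Finset.prod_mul_distrib]
    exact Finset.prod_congr rfl fun i' _ => (zpow_add₀ (hz0 i') _ _).symm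
  refine BoundedDegreeAdicPoints.result V O hOb hO π hπ hπ0 hπ1 hπV hdiv E hEv n n 1 1 le_rfl x
    ⟨htop, htr, cc, hC⟩ ?_ (Set.range z) (Set.finite_range z) 1 ⟨i₀, hi₀⟩ one_ne_zero ?_ ?_
  · intro p hp h
    exfalso
    have h1 := hp.two_le
    simp only [one_pow, one_mul] at h
    omega
  · rintro _ ⟨i, rfl⟩
    rw [div_one]
    exact hzV i
  · refine ⟨?_, ?_, Set.range a, Set.finite_range a, hcl, ?_⟩
    · rintro _ ⟨i, rfl⟩
      exact hzp i
    · intro j
      rw [hx j]
      exact hfrac _
    · rintro _ ⟨i, rfl⟩
      rw [hax i]
      exact hfrac _

end Pool.Agent.Results.MP_1a953e_ag.TorusActionsAdicPoints
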